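import Mathlib

set_option autoImplicit false

open Filter Topology BoundedContinuousFunction Cardinal

namespace Pool.Agent.Lib.MP_faf25a_an.R

universe u v

/-- A bounded family of functionals gives an operator into bounded functions. -/
lemma exists_op {V : Type v} [NormedAddCommGroup V] [NormedSpace ℝ V] {ι : Type u}
    [TopologicalSpace ι] [DiscreteTopology ι] (ψ : ι → V →L[ℝ] ℝ) (C : ℝ) (hC0 : 0 ≤ C)
    (hC : ∀ i, ‖ψ i‖ ≤ C) : ∃ T : V →L[ℝ] (ι →ᵇ ℝ), ∀ v i, T v i = ψ i v := by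
  refine ⟨LinearMap.mkContinuous
    { toFun := fun v => ofNormedAddCommGroupDiscrete (fun i => ψ i v) (C * ‖v‖)
        (fun i => (ψ i).le_of_opNorm_le (hC i) v)
      map_add' := fun v w => by ext i; simp
      map_smul' := fun c v => by ext i; simp } C (fun v => ?_), fun v i => rfl⟩
  refine (BoundedContinuousFunction.norm_le (by positivity)).mpr fun i => ?_
  exact (ψ i).le_of_opNorm_le (hC i) v

/-- Coordinatewise Hahn-Banach extension. -/
lemma exists_coord {V : Type v} [NormedAddCommGroup V] [NormedSpace ℝ V] {ι : Type u}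
    [TopologicalSpace ι] (W : Submodule ℝ V) (t : W →L[ℝ] (ι →ᵇ ℝ)) :
    ∃ ψ : ι → V →L[ℝ] ℝ, (∀ i, ‖ψ i‖ ≤ ‖t‖) ∧ ∀ i (w : W), ψ i w = t w i := by
  have : ∀ i, ∃ ψ : V →L[ℝ] ℝ, ‖ψ‖ ≤ ‖t‖ ∧ ∀ w : W, ψ w = t w i := by
    intro i
    obtain ⟨g, hg1, hg2⟩ := exists_extension_norm_eq W ((evalCLM ℝ i).comp t)
    refine ⟨g, ?_, fun w => hg1 w⟩
    rw [hg2]
    refine ContinuousLinearMap.opNorm_le_bound _ t.opNorm_nonneg fun w => ?_
    exact ((t w).norm_coe_le_norm i).trans (t.le_opNorm w)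
  choose ψ h1 h2 using this
  exact ⟨ψ, h1, h2⟩

lemma injective_linf {V : Type v} [NormedAddCommGroup V] [NormedSpace ℝ V] {ι : Type u}
    [TopologicalSpace ι] [DiscreteTopology ι] (W : Submodule ℝ V) (t : W →L[ℝ] (ι →ᵇ ℝ)) :
    ∃ T : V →L[ℝ] (ι →ᵇ ℝ), ∀ w : W, T w = t w := by
  obtain ⟨ψ, h1, h2⟩ := exists_coord W t
  obtain ⟨T, hT⟩ := exists_op ψ ‖t‖ t.opNorm_nonneg h1
  exact ⟨T, fun w => by ext i; rw [hT, h2]⟩

/-- An operator that kills the kernel of a surjection factors through it. -/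
lemma exists_factor {P Z X : Type*} [NormedAddCommGroup P] [NormedSpace ℝ P] [CompleteSpace P]
    [NormedAddCommGroup Z] [NormedSpace ℝ Z] [CompleteSpace Z]
    [NormedAddCommGroup X] [NormedSpace ℝ X] (π : P →L[ℝ] Z) (hπ : Function.Surjective π)
    (S : P →L[ℝ] X) (hS : ∀ p, π p = 0 → S p = 0) : ∃ T : Z →L[ℝ] X, ∀ p, T (π p) = S p := by
  obtain ⟨C, hC, hC'⟩ := π.exists_preimage_norm_le hπ
  choose σ h1 h2 using hC'
  have key : ∀ p z, π p = z → S (σ z) = S p := fun p z h => by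
    have := hS (σ z - p) (by rw [map_sub, h1, h, sub_self])
    rwa [map_sub, sub_eq_zero] at this
  refine ⟨LinearMap.mkContinuous
    { toFun := fun z => S (σ z)
      map_add' := fun z z' => by
        rw [key (σ z + σ z') _ (by rw [map_add, h1, h1]), map_add]
      map_smul' := fun c z => by
        rw [key (c • σ z) _ (by rw [map_smul, h1]), map_smul]; rfl } (‖S‖ * C) (fun z => ?_),
    fun p => key p _ rfl⟩
  calc ‖S (σ z)‖ ≤ ‖S‖ * ‖σ z‖ := S.le_opNorm _
    _ ≤ ‖S‖ * (C * ‖z‖) := by gcongr; exact h2 z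
    _ = _ := by ring

section Rosenthal

variable {ι : Type u} [TopologicalSpace ι]

/-- `w` is at most `c` on the unit ball of the functions supported in `A`. -/
def Bd (w : (ι →ᵇ ℝ) →L[ℝ] ℝ) (A : Set ι) (c : ℝ) : Prop :=
  ∀ x : ι →ᵇ ℝ, (∀ i, i ∉ A → x i = 0) → (∀ i, |x i| ≤ 1) → w x ≤ c

lemma Bd.mono {w : (ι →ᵇ ℝ) →L[ℝ] ℝ} {A B : Set ι} {c c' : ℝ} (h : Bd w B c) (hA : A ⊆ B)
    (hc : c ≤ c') : Bd w A c' :=
  fun x h1 h2 => (h x (fun i hi => h1 i fun h => hi (hA h)) h2).trans hc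

lemma Bd.drop {w : (ι →ᵇ ℝ) →L[ℝ] ℝ} {A B : Set ι} {c ε : ℝ} (h : Bd w B c) (hA : A ⊆ B)
    (h' : ¬ Bd w (B \ A) ε) : Bd w A (c - ε) := by
  intro x h1 h2
  simp only [Bd, not_forall, not_le] at h'
  obtain ⟨y, y1, y2, y3⟩ := h'
  have := h (x + y) (fun i hi => by
    rw [BoundedContinuousFunction.add_apply, h1 i fun h => hi (hA h), y1 i fun h => hi h.1,
      add_zero]) (fun i => by
    rw [BoundedContinuousFunction.add_apply]
    by_cases hi : i ∈ A
    · rw [y1 i fun h => h.2 hi, add_zero]; exact h2 i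
    · rw [h1 i hi, zero_add]; exact y2 i)
  rw [map_add] at this
  linarith

lemma rosenthal_aux (p : ι × ι ↪ ι) (w : ι → (ι →ᵇ ℝ) →L[ℝ] ℝ) {ε : ℝ} (hε : 0 ≤ ε) (n : ℕ) :
    ∀ e : ι ↪ ι, (∀ a, Bd (w (e a)) (Set.range e) (n * ε)) →
      ∃ f : ι ↪ ι, ∀ a, Bd (w (f a)) (Set.range f \ {f a}) ε := by
  induction n with
  | zero => exact fun e he => ⟨e, fun a => (he a).mono Set.sdiff_subset (by simpa using hε)⟩
  | succ n ih =>
    intro e he
    by_cases h : ∀ a, ∃ b, Bd (w (e (p (a, b)))) (Set.range e \ Set.range fun b => e (p (a, b))) ε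
    · choose β hβ using h
      refine ⟨⟨fun a => e (p (a, β a)), fun a a' h => ?_⟩, fun a => (hβ a).mono ?_ le_rfl⟩
      · exact (Prod.mk.inj (p.injective (e.injective h))).1
      · rintro _ ⟨⟨a', rfl⟩, h2⟩
        refine ⟨⟨_, rfl⟩, ?_⟩
        rintro ⟨b, hb⟩
        obtain rfl : a = a' := (Prod.mk.inj (p.injective (e.injective hb))).1
        exact h2 rfl
    · push Not at h
      obtain ⟨a, ha⟩ := h
      refine ih ⟨fun b => e (p (a, b)), fun b b' h => ?_⟩ fun b => ?_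
      · exact (Prod.mk.inj (p.injective (e.injective h))).2
      · refine ((he (p (a, b))).drop ?_ (ha b)).mono subset_rfl (le_of_eq ?_)
        · rintro _ ⟨b', rfl⟩; exact ⟨_, rfl⟩
        · push_cast; ring

/-- Rosenthal's lemma for an arbitrary infinite index set. -/
lemma rosenthal [Infinite ι] (w : ι → (ι →ᵇ ℝ) →L[ℝ] ℝ) (C : ℝ) (hC : ∀ a, ‖w a‖ ≤ C) {ε : ℝ}
    (hε : 0 < ε) : ∃ f : ι ↪ ι, ∀ a, Bd (w (f a)) (Set.range f \ {f a}) ε := by
  obtain ⟨p⟩ : Nonempty (ι × ι ↪ ι) := by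
    rw [← Cardinal.le_def]
    simp
  obtain ⟨n, hn⟩ := exists_nat_ge (C / ε)
  rw [div_le_iff₀ hε] at hn
  refine rosenthal_aux p w hε.le n (Function.Embedding.refl _) fun a x _ h2 => ?_
  have hx : ‖x‖ ≤ 1 := (BoundedContinuousFunction.norm_le zero_le_one).mpr h2
  exact (le_abs_self _).trans (((w _).le_opNorm x).trans
    ((mul_le_of_le_one_right (norm_nonneg _) hx).trans ((hC _).trans hn)))

end Rosenthal

section Span

variable {E : Type u} [NormedAddCommGroup E] [NormedSpace ℝ E] {ι : Type u}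

/-- Rational combinations of a family. -/
def comb (a : ι → E) (l : List (ℚ × ι)) : E := (l.map fun p => (p.1 : ℝ) • a p.2).sum

lemma comb_append (a : ι → E) (l l' : List (ℚ × ι)) : comb a (l ++ l') = comb a l + comb a l' := by
  simp [comb]

lemma comb_smul (a : ι → E) (q : ℚ) (l : List (ℚ × ι)) :
    comb a (l.map fun p => (q * p.1, p.2)) = (q : ℝ) • comb a l := by
  induction l with
  | nil => simp [comb]
  | cons p l ih =>
    simp only [comb, List.map_cons, List.sum_cons, smul_add] at ih ⊢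
    rw [ih, smul_smul, Rat.cast_mul]

/-- The closed linear span of a family. -/
def csp (a : ι → E) : Submodule ℝ E where
  carrier := closure (Set.range (comb a))
  add_mem' := fun hx hy => map_mem_closure₂ continuous_add hx hy (by
    rintro _ ⟨l, rfl⟩ _ ⟨l', rfl⟩
    exact ⟨l ++ l', comb_append a l l'⟩)
  zero_mem' := subset_closure ⟨[], rfl⟩
  smul_mem' := fun c x hx => by
    refine (Rat.denseRange_cast (𝕜 := ℝ)).induction_on
      (p := fun c : ℝ => c • x ∈ closure (Set.range (comb a))) c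
      (isClosed_closure.preimage (by fun_prop)) fun q => ?_
    refine map_mem_closure (f := fun x : E => (q : ℝ) • x) (by fun_prop) hx ?_
    rintro _ ⟨l, rfl⟩
    exact ⟨_, comb_smul a q l⟩

lemma isClosed_csp (a : ι → E) : IsClosed (csp a : Set E) := isClosed_closure

lemma mem_csp (a : ι → E) (i : ι) : a i ∈ csp a := subset_closure ⟨[(1, i)], by simp [comb]⟩

lemma csp_le (a : ι → E) {K : Submodule ℝ E} (hK : IsClosed (K : Set E)) (h : ∀ i, a i ∈ K) :
    csp a ≤ K := by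
  refine closure_minimal ?_ hK
  rintro _ ⟨l, rfl⟩
  refine K.list_sum_mem fun x hx => ?_
  obtain ⟨p, -, rfl⟩ := List.mem_map.mp hx
  exact K.smul_mem _ (h _)

lemma mk_range_comb (a : ι → E) {μ : Cardinal.{u}} (hμ : ℵ₀ ≤ μ) (h : #ι ≤ μ) :
    #(Set.range (comb a)) ≤ μ := by
  refine mk_range_le.trans ((mk_list_le_max _).trans (max_le hμ ?_))
  rw [mk_prod, lift_uzero, Cardinal.mkRat, lift_aleph0]
  exact (mul_le_mul' hμ h).trans (mul_eq_self hμ).le

lemma dense_csp (a : ι → E) {μ : Cardinal.{u}} (hμ : ℵ₀ ≤ μ) (h : #ι ≤ μ) :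
    ∃ s : Set (csp a), Dense s ∧ #s ≤ μ := by
  refine ⟨Subtype.val ⁻¹' Set.range (comb a), Subtype.dense_iff.mpr ?_,
    (mk_preimage_of_injective _ _ Subtype.val_injective).trans (mk_range_comb a hμ h)⟩
  refine closure_mono fun x hx => ⟨⟨x, subset_closure hx⟩, hx, rfl⟩

lemma mk_csp (a : ι → E) {μ : Cardinal.{u}} (hμ : ℵ₀ ≤ μ) (h : #ι ≤ μ) : #(csp a) ≤ 2 ^ μ := by
  have h1 : (csp a : Set E) ⊆ Set.range fun f : ULift.{u} ℕ → Set.range (comb a) =>
      limUnder atTop fun n : ℕ => (f ⟨n⟩ : E) := by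
    intro x hx
    obtain ⟨y, y1, y2⟩ := mem_closure_iff_seq_limit.mp hx
    exact ⟨fun n => ⟨y n.down, y1 _⟩, y2.limUnder_eq⟩
  refine (mk_le_mk_of_subset h1).trans (mk_range_le.trans ?_)
  rw [← power_def, ← power_self_eq hμ]
  refine (power_le_power_right (mk_range_comb a hμ h)).trans (power_le_power_left ?_ ?_)
  · exact (aleph0_pos.trans_le hμ).ne'
  · simpa using hμ

end Span

end Pool.Agent.Lib.MP_faf25a_an.R
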