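import Pool.Agent.Lib.MP_faf25a_an.R.Basic

set_option autoImplicit false

open Filter Topology BoundedContinuousFunction Cardinal

namespace Pool.Agent.Lib.MP_faf25a_an.R

universe u

lemma bessel_gen {α ι : Type*} [DecidableEq ι] (S : Finset α) (G : Finset ι) (φ : ι → α → ℝ)
    (y : α → ℝ) (N c : ℝ) (hN : 0 < N) (hS : (S.card : ℝ) = N)
    (e2 : ∀ p ∈ G, ∀ q ∈ G, ∑ a ∈ S, φ p a * φ q a = if p = q then N else 0)
    (hy : ∀ a, |y a| ≤ c) : ∑ p ∈ G, (N⁻¹ * ∑ a ∈ S, φ p a * y a) ^ 2 ≤ c ^ 2 := by
  set m : ι → ℝ := fun p => N⁻¹ * ∑ a ∈ S, φ p a * y a with hm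
  have e1 : ∀ p, ∑ a ∈ S, φ p a * y a = N * m p := by
    intro p
    simp only [hm]
    field_simp
  have e3 : ∑ a ∈ S, (y a - ∑ p ∈ G, m p * φ p a) ^ 2
      = ∑ a ∈ S, y a ^ 2 - N * ∑ p ∈ G, m p ^ 2 := by
    have : ∀ a, (y a - ∑ p ∈ G, m p * φ p a) ^ 2
        = y a ^ 2 - 2 * ∑ p ∈ G, m p * (φ p a * y a)
          + ∑ p ∈ G, ∑ q ∈ G, m p * m q * (φ p a * φ q a) := by
      intro a
      have f1 : ∑ p ∈ G, m p * (φ p a * y a) = (∑ p ∈ G, m p * φ p a) * y a := by
        rw [Finset.sum_mul]; exact Finset.sum_congr rfl fun p _ => by ring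
      have f2 : ∑ p ∈ G, ∑ q ∈ G, m p * m q * (φ p a * φ q a)
          = (∑ p ∈ G, m p * φ p a) * ∑ p ∈ G, m p * φ p a := by
        rw [Finset.sum_mul_sum]
        exact Finset.sum_congr rfl fun p _ => Finset.sum_congr rfl fun q _ => by ring
      rw [f1, f2]; ring
    simp_rw [this]
    rw [Finset.sum_add_distrib, Finset.sum_sub_distrib, ← Finset.mul_sum, Finset.sum_comm]
    have g1 : ∑ p ∈ G, ∑ a ∈ S, m p * (φ p a * y a) = N * ∑ p ∈ G, m p ^ 2 := by
      rw [Finset.mul_sum]
      refine Finset.sum_congr rfl fun p _ => ?_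
      rw [← Finset.mul_sum, e1]; ring
    have g2 : ∑ a ∈ S, ∑ p ∈ G, ∑ q ∈ G, m p * m q * (φ p a * φ q a)
        = N * ∑ p ∈ G, m p ^ 2 := by
      rw [Finset.sum_comm, Finset.mul_sum]
      refine Finset.sum_congr rfl fun p hp => ?_
      rw [Finset.sum_comm]
      have : ∀ q ∈ G, ∑ a ∈ S, m p * m q * (φ p a * φ q a)
          = if p = q then N * m p ^ 2 else 0 := by
        intro q hq
        rw [← Finset.mul_sum, e2 p hp q hq]
        split_ifs with hpq
        · subst hpq; ring
        · simp
      rw [Finset.sum_congr rfl this]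
      simp [hp]
    rw [g1, g2]; ring
  have e4 : 0 ≤ ∑ a ∈ S, (y a - ∑ p ∈ G, m p * φ p a) ^ 2 :=
    Finset.sum_nonneg fun a _ => sq_nonneg _
  have e5 : ∑ a ∈ S, y a ^ 2 ≤ N * c ^ 2 := by
    have : ∀ a ∈ S, y a ^ 2 ≤ c ^ 2 := by
      intro a _
      rw [← sq_abs]
      exact pow_le_pow_left₀ (abs_nonneg _) (hy a) 2
    refine (Finset.sum_le_sum this).trans (le_of_eq ?_)
    simp [hS]
  have : N * ∑ p ∈ G, m p ^ 2 ≤ N * c ^ 2 := by linarith
  exact le_of_mul_le_mul_left this hN

variable (L : Type u)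

/-- Sign patterns. -/
abbrev Br : Type u := L → Bool

/-- The index set: a level, a finite set of coordinates and a Walsh index. -/
def Om : Type u := ℕ × Finset L × Finset L

instance : TopologicalSpace (Om L) := ⊥
instance : DiscreteTopology (Om L) := ⟨rfl⟩
instance : Infinite (Om L) := inferInstanceAs (Infinite (ℕ × Finset L × Finset L))

lemma mk_Om [Infinite L] : #(Om L) = #L := by
  change #(ℕ × Finset L × Finset L) = _
  simp [mk_finset_of_infinite]

/-- Bounded functions on the index set. -/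
abbrev LO : Type u := Om L →ᵇ ℝ

/-- An ultrafilter of large finite sets. -/
noncomputable def UF : Ultrafilter (Finset L) := Ultrafilter.of atTop

lemma UF_le : (UF L : Filter (Finset L)) ≤ atTop := Ultrafilter.of_le _

variable {L}

/-- A point of the index set. -/
def om (i : ℕ) (F A : Finset L) : Om L := (i, F, A)

/-- Walsh characters. -/
def chi (t : Br L) (A : Finset L) : ℝ := ∏ j ∈ A, if t j then -1 else 1

lemma chi_mul_self (t : Br L) (A : Finset L) : chi t A * chi t A = 1 := by
  unfold chi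
  rw [← Finset.prod_mul_distrib]
  refine Finset.prod_eq_one fun j _ => ?_
  split_ifs <;> norm_num

lemma abs_chi (t : Br L) (A : Finset L) : |chi t A| = 1 := by
  rcases mul_self_eq_one_iff.mp (chi_mul_self t A) with h | h <;> simp [h]

lemma sum_chi_mul {t t' : Br L} {F : Finset L} (h : ∃ j ∈ F, t j ≠ t' j) :
    ∑ A ∈ F.powerset, chi t A * chi t' A = 0 := by
  classical
  obtain ⟨j0, hj, hj0⟩ := h
  simp_rw [chi, ← Finset.prod_mul_distrib]
  rw [← Finset.prod_one_add]
  refine Finset.prod_eq_zero hj ?_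
  cases h1 : t j0 <;> cases h2 : t' j0 <;> simp_all

/-- The mean of `x` against a Walsh character on one slice. -/
noncomputable def avg (e : Om L ↪ Om L) (t : Br L) (i : ℕ) (F : Finset L) (x : LO L) : ℝ :=
  ((2 : ℝ) ^ F.card)⁻¹ * ∑ A ∈ F.powerset, chi t A * x (e (om i F A))

variable (e : Om L ↪ Om L) (t : Br L) (i : ℕ)

lemma avg_add (F : Finset L) (x y : LO L) :
    avg e t i F (x + y) = avg e t i F x + avg e t i F y := by
  simp [avg, mul_add, Finset.sum_add_distrib]

lemma avg_smul (F : Finset L) (c : ℝ) (x : LO L) : avg e t i F (c • x) = c * avg e t i F x := by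
  simp only [avg, BoundedContinuousFunction.smul_apply, smul_eq_mul, Finset.mul_sum]
  exact Finset.sum_congr rfl fun a _ => by ring

lemma abs_avg_le (F : Finset L) (x : LO L) : |avg e t i F x| ≤ ‖x‖ := by
  unfold avg
  rw [abs_mul, abs_of_pos (by positivity : (0 : ℝ) < ((2 : ℝ) ^ F.card)⁻¹),
    inv_mul_le_iff₀ (by positivity)]
  refine (Finset.abs_sum_le_sum_abs _ _).trans ?_
  have : ∀ A ∈ F.powerset, |chi t A * x (e (om i F A))| ≤ ‖x‖ := by
    intro a _
    rw [abs_mul, abs_chi, one_mul]
    exact x.norm_coe_le_norm _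
  refine (Finset.sum_le_sum this).trans (le_of_eq ?_)
  simp

lemma le_avg (F : Finset L) (x : LO L) {c : ℝ} (h : ∀ A, c ≤ chi t A * x (e (om i F A))) :
    c ≤ avg e t i F x := by
  unfold avg
  rw [le_inv_mul_iff₀ (by positivity)]
  refine le_trans (le_of_eq ?_) (Finset.sum_le_sum fun A _ => h A)
  simp

/-- The limit of the means along the ultrafilter. -/
noncomputable def mu (x : LO L) : ℝ :=
  limUnder (UF L : Filter (Finset L)) (fun F => avg e t i F x)

lemma tendsto_mu (x : LO L) :
    Tendsto (fun F => avg e t i F x) (UF L : Filter (Finset L)) (𝓝 (mu e t i x)) := by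
  refine tendsto_nhds_limUnder ?_
  obtain ⟨y, -, hy⟩ := (isCompact_Icc (a := -‖x‖) (b := ‖x‖)).ultrafilter_le_nhds
    ((UF L).map fun F => avg e t i F x) (by
      rw [Ultrafilter.coe_map, le_principal_iff, mem_map]
      exact Eventually.of_forall fun k => abs_le.mp (abs_avg_le _ _ _ _ _))
  exact ⟨y, hy⟩

lemma abs_mu_le (x : LO L) : |mu e t i x| ≤ ‖x‖ :=
  le_of_tendsto' (tendsto_mu e t i x).abs fun _ => abs_avg_le _ _ _ _ _

/-- The mean as a continuous linear functional. -/
noncomputable def muL : LO L →L[ℝ] ℝ :=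
  LinearMap.mkContinuous
    { toFun := mu e t i
      map_add' := fun x y => tendsto_nhds_unique (tendsto_mu e t i (x + y)) (by
        simp_rw [avg_add]; exact (tendsto_mu e t i x).add (tendsto_mu e t i y))
      map_smul' := fun c x => tendsto_nhds_unique (tendsto_mu e t i (c • x)) (by
        simp_rw [avg_smul]; exact (tendsto_mu e t i x).const_mul c) } 1
    (fun x => by simpa using abs_mu_le e t i x)

lemma muL_apply (x : LO L) : muL e t i x = mu e t i x := rfl

lemma eventually_sep (G : Finset (Br L)) :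
    ∀ᶠ F : Finset L in atTop, ∀ p ∈ G, ∀ q ∈ G, p ≠ q → ∃ j ∈ F, p j ≠ q j := by
  refine (eventually_all_finset G).mpr fun p _ => (eventually_all_finset G).mpr fun q _ => ?_
  by_cases hpq : p = q
  · exact Eventually.of_forall fun _ h' => absurd hpq h'
  · obtain ⟨j, hj⟩ := Function.ne_iff.mp hpq
    filter_upwards [eventually_ge_atTop {j}] with F hF _
    exact ⟨j, hF (Finset.mem_singleton_self j), hj⟩

lemma countable_mu_ne (x : LO L) : {t : Br L | mu e t i x ≠ 0}.Countable := by
  classical
  have hs : Summable (fun t : Br L => mu e t i x ^ 2) := by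
    refine summable_of_sum_le (c := ‖x‖ ^ 2) (fun t => sq_nonneg _) fun G => ?_
    refine le_of_tendsto (tendsto_finsetSum G fun t _ => (tendsto_mu e t i x).pow 2) ?_
    filter_upwards [UF_le L (eventually_sep G)] with F hF
    refine bessel_gen F.powerset G chi (fun A => x (e (om i F A))) _ _ (by positivity) (by simp)
      (fun p hp q hq => ?_) fun A => x.norm_coe_le_norm _
    split_ifs with hpq
    · subst hpq; simp [chi_mul_self]
    · exact sum_chi_mul (hF p hp q hq hpq)
  refine hs.countable_support.mono fun t ht => ?_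
  simpa using ht

open Classical in
/-- The indicator function of a point. -/
noncomputable def pt (ω : Om L) : LO L :=
  ofNormedAddCommGroupDiscrete (fun ω' => if ω' = ω then 1 else 0) 1
    (fun ω' => by split_ifs <;> simp)

open Classical in
lemma pt_apply (ω ω' : Om L) : pt ω ω' = if ω' = ω then 1 else 0 := rfl

lemma mu_pt [Infinite L] (ω : Om L) : mu e t i (pt ω) = 0 := by
  refine tendsto_nhds_unique (tendsto_mu e t i _) (tendsto_const_nhds.congr' ?_)
  obtain ⟨j, hj⟩ := Infinite.exists_notMem_finset (Function.invFun e ω).2.1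
  filter_upwards [UF_le L (eventually_ge_atTop {j})] with F hF
  unfold avg
  rw [Finset.sum_eq_zero, mul_zero]
  intro A _
  rw [pt_apply, if_neg, mul_zero]
  rintro rfl
  rw [Function.leftInverse_invFun e.injective] at hj
  exact hj (hF (Finset.mem_singleton_self j))

open Classical in
/-- The test function living on the image of level `i`. -/
noncomputable def zf : LO L :=
  ofNormedAddCommGroupDiscrete
    (fun ω : Om L => if ω ∈ Set.range e ∧ (Function.invFun e ω).1 = i then
      chi t (Function.invFun e ω).2.2 else 0) 1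
    (fun ω => by
      split_ifs
      · rw [Real.norm_eq_abs, abs_chi]
      · simp)

open Classical in
lemma zf_apply (ω : Om L) : zf e t i ω = if ω ∈ Set.range e ∧ (Function.invFun e ω).1 = i then
    chi t (Function.invFun e ω).2.2 else 0 := rfl

lemma zf_om (F A : Finset L) : zf e t i (e (om i F A)) = chi t A := by
  rw [zf_apply, Function.leftInverse_invFun e.injective, if_pos ⟨⟨_, rfl⟩, rfl⟩]
  rfl

lemma abs_zf (ω : Om L) : |zf e t i ω| ≤ 1 := by
  rw [zf_apply]
  split_ifs
  · rw [abs_chi]
  · simp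

/-- An operator fixing the point indicators almost fixes the means along a suitable embedding. -/
lemma exists_emb (S : LO L →L[ℝ] LO L) (hS : ∀ ω, S (pt ω) = pt ω) :
    ∃ e : Om L ↪ Om L, ∀ t i, 1 / 2 ≤ mu e t i (S (zf e t i)) := by
  obtain ⟨e, he⟩ := rosenthal (fun ω => (evalCLM ℝ ω).comp S) ‖S‖ (fun ω =>
    ContinuousLinearMap.opNorm_le_bound _ S.opNorm_nonneg fun x =>
      ((S x).norm_coe_le_norm ω).trans (S.le_opNorm x)) (ε := 1 / 2) (by norm_num)
  refine ⟨e, fun t i => ge_of_tendsto' (tendsto_mu e t i _) fun F => le_avg e t i F _ fun A => ?_⟩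
  have h := he (om i F A) (pt (e (om i F A)) - chi t A • zf e t i) (fun ω hω => ?_) fun ω => ?_
  · have h2 : pt (e (om i F A)) (e (om i F A)) = 1 := by rw [pt_apply, if_pos rfl]
    simp only [ContinuousLinearMap.comp_apply, map_sub, map_smul, hS, evalCLM_apply, h2,
      smul_eq_mul] at h
    linarith
  · simp only [BoundedContinuousFunction.sub_apply, BoundedContinuousFunction.smul_apply,
      smul_eq_mul, pt_apply]
    split_ifs with h1
    · rw [h1, zf_om, chi_mul_self, sub_self]
    · rw [zf_apply, if_neg, mul_zero, sub_zero]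
      exact fun h => hω ⟨h.1, h1⟩
  · simp only [BoundedContinuousFunction.sub_apply, BoundedContinuousFunction.smul_apply,
      smul_eq_mul, pt_apply]
    split_ifs with h1
    · rw [h1, zf_om, chi_mul_self]; simp
    · rw [zero_sub, abs_neg, abs_mul, abs_chi, one_mul]
      exact abs_zf e t i ω

end Pool.Agent.Lib.MP_faf25a_an.R
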