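import Pool.Agent.Lib.MP_faf25a_an.R.Basic

set_option autoImplicit false

open Filter Topology BoundedContinuousFunction Cardinal

namespace Pool.Agent.Lib.MP_faf25a_an.R

universe u

/-- Extension of operators from closed subspaces of cardinality less than `κ`. -/
def Ext (κ : Cardinal.{u}) (E : Type u) [NormedAddCommGroup E] [NormedSpace ℝ E] : Prop :=
  ∀ (V : Type u) [NormedAddCommGroup V] [NormedSpace ℝ V] [CompleteSpace V] (W : Submodule ℝ V),
    IsClosed (W : Set V) → #W < κ → ∀ t : W →L[ℝ] E, ∃ T : V →L[ℝ] E, ∀ w : W, T w = t w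

/-- The pull-back argument for a small superspace. -/
lemma ext_small {κ : Cardinal.{u}} (hκ : κ.IsStrongLimit) (h0 : ℵ₀ < κ) {X : Type u}
    [NormedAddCommGroup X] [NormedSpace ℝ X] [CompleteSpace X] (Y : Submodule ℝ X)
    [hY : IsClosed (Y : Set X)] (h1 : Ext κ Y) (h2 : Ext κ (X ⧸ Y)) {Z : Type u}
    [NormedAddCommGroup Z] [NormedSpace ℝ Z] [CompleteSpace Z] (hZ : #Z < κ) (W : Submodule ℝ Z)
    (hW : IsClosed (W : Set Z)) (t : W →L[ℝ] X) : ∃ T : Z →L[ℝ] X, ∀ w : W, T w = t w := by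
  classical
  obtain ⟨τ, hτ⟩ := h2 Z W hW ((mk_subtype_le _).trans_lt hZ) (Y.mkQL.comp t)
  have : ∀ z : Z, ∃ x : X, Y.mkQL x = τ z ∧ ∀ h : z ∈ W, x = t ⟨z, h⟩ := fun z => by
    by_cases h : z ∈ W
    · exact ⟨t ⟨z, h⟩, (hτ ⟨z, h⟩).symm, fun _ => rfl⟩
    · obtain ⟨x, hx⟩ := Y.mkQ_surjective (τ z)
      exact ⟨x, hx, fun h' => absurd h' h⟩
  choose σ σ1 σ2 using this
  set a : Z → Z × X := fun z => (z, σ z) with ha
  set P := csp a with hP
  have hPc : CompleteSpace P := (isClosed_csp a).completeSpace_coe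
  have hPk : #P < κ := (mk_csp a (le_max_right _ _) (le_max_left #Z ℵ₀)).trans_lt
    (hκ.isStrongPrelimit (max_lt hZ h0))
  have hPB : ∀ p ∈ P, Y.mkQL p.2 = τ p.1 := fun p hp => by
    have := csp_le a (K := (Y.mkQL.comp (ContinuousLinearMap.snd ℝ Z X) -
      τ.comp (ContinuousLinearMap.fst ℝ Z X)).ker) (ContinuousLinearMap.isClosed_ker _)
      (fun z => sub_eq_zero.mpr (σ1 z)) hp
    exact sub_eq_zero.mp this
  set π1 : P →L[ℝ] Z := (ContinuousLinearMap.fst ℝ Z X).comp P.subtypeL with hπ1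
  set π2 : P →L[ℝ] X := (ContinuousLinearMap.snd ℝ Z X).comp P.subtypeL with hπ2
  set Q : Submodule ℝ P := W.comap π1.toLinearMap with hQ
  set j : Q →L[ℝ] W := (π1.comp Q.subtypeL).codRestrict W fun q => q.2 with hj
  have hr : ∀ q : Q, (π2.comp Q.subtypeL - t.comp j) q ∈ Y := fun q => by
    rw [← Submodule.Quotient.mk_eq_zero]
    have e1 : Y.mkQL (π2 q) = τ (j q) := hPB _ q.1.2
    have e2 : τ (j q) = Y.mkQL (t (j q)) := hτ (j q)
    change Y.mkQL (π2 q - t (j q)) = 0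
    rw [map_sub, e1, e2, sub_self]
  obtain ⟨R, hR⟩ := h1 P Q (hW.preimage π1.continuous) ((mk_subtype_le _).trans_lt hPk)
    ((π2.comp Q.subtypeL - t.comp j).codRestrict Y hr)
  have hS : ∀ q : Q, (π2 - Y.subtypeL.comp R) q = t (j q) := fun q => by
    change π2 q - (R q : X) = _
    rw [hR q]
    exact sub_sub_cancel _ _
  obtain ⟨T, hT⟩ := exists_factor π1 (fun z => ⟨⟨a z, mem_csp a z⟩, rfl⟩) (π2 - Y.subtypeL.comp R)
    fun p hp => by
      have hp' : p ∈ Q := by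
        change π1 p ∈ W
        rw [hp]; exact W.zero_mem
      rw [hS ⟨p, hp'⟩, show j ⟨p, hp'⟩ = 0 from Subtype.ext hp, map_zero]
  exact ⟨T, fun w => (hT ⟨a w, mem_csp a w⟩).trans (hS ⟨⟨a w, mem_csp a w⟩, w.2⟩)⟩

/-- A discrete copy of a type. -/
def Ds (ι : Type u) : Type u := ι

instance (ι : Type u) : TopologicalSpace (Ds ι) := ⊥
instance (ι : Type u) : DiscreteTopology (Ds ι) := ⟨rfl⟩

lemma mk_linf (ι : Type u) : #(Ds ι →ᵇ ℝ) ≤ 2 ^ max #ι ℵ₀ := by
  refine (mk_le_of_injective (f := fun (f : Ds ι →ᵇ ℝ) (i : ι) => ULift.up.{u} (f i))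
    fun f g h => BoundedContinuousFunction.ext fun i => ULift.up_injective (congrFun h i)).trans ?_
  rw [← power_def, mk_uLift, mk_real, lift_continuum, ← two_power_aleph0, ← power_mul]
  refine power_le_power_left two_ne_zero ?_
  exact (mul_le_mul' (le_max_right #ι ℵ₀) (le_max_left #ι ℵ₀)).trans
    (mul_eq_self (le_max_right _ _)).le

theorem ext_of_strongLimit {κ : Cardinal.{u}} (hκ : κ.IsStrongLimit) (h0 : ℵ₀ < κ) {X : Type u}
    [NormedAddCommGroup X] [NormedSpace ℝ X] [CompleteSpace X] (Y : Submodule ℝ X)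
    [IsClosed (Y : Set X)] (h1 : Ext κ Y) (h2 : Ext κ (X ⧸ Y)) {V : Type u}
    [NormedAddCommGroup V] [NormedSpace ℝ V] [CompleteSpace V] (W : Submodule ℝ V)
    (hW : IsClosed (W : Set V)) (s : Set W) (hs : Dense s) (hc : #s < κ) (t : W →L[ℝ] X) :
    ∃ T : V →L[ℝ] X, ∀ w : W, T w = t w := by
  have := hW.completeSpace_coe
  choose φ φ1 φ2 using fun σ : s => exists_dual_vector'' ℝ ((σ : W) : V)
  obtain ⟨I, hI⟩ := exists_op (ι := Ds s) φ 1 zero_le_one φ1
  have hn : ∀ w : W, ‖w‖ ≤ ‖I w‖ := fun w =>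
    hs.induction (P := fun w : W => ‖w‖ ≤ ‖I w‖) (fun w hw => by
      have := (I w).norm_coe_le_norm ⟨w, hw⟩
      rw [hI, φ2] at this
      simpa using this) (isClosed_le (by fun_prop) (by fun_prop)) w
  have hn' : ∀ v, ‖I v‖ ≤ ‖v‖ := fun v =>
    (BoundedContinuousFunction.norm_le (norm_nonneg _)).mpr fun i => by
      rw [hI]
      simpa using (φ i).le_of_opNorm_le (φ1 i) v
  let J : W →ₗᵢ[ℝ] (Ds s →ᵇ ℝ) :=
    ⟨(I.comp W.subtypeL).toLinearMap, fun w => le_antisymm (hn' _) (hn w)⟩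
  obtain ⟨T, hT⟩ := ext_small hκ h0 Y h1 h2
    ((mk_linf s).trans_lt (hκ.isStrongPrelimit (max_lt hc h0))) J.toLinearMap.range
    J.isometry.isClosedEmbedding.isClosed_range
    (t.comp J.equivRange.symm.toContinuousLinearEquiv.toContinuousLinearMap)
  refine ⟨T.comp I, fun w => (hT (J.equivRange w)).trans ?_⟩
  simp

lemma eq_zero_of_finite {W : Type u} [NormedAddCommGroup W] [NormedSpace ℝ W] {s : Set W}
    (hs : Dense s) (hf : s.Finite) (w : W) : w = 0 := by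
  by_contra h
  have : Nontrivial W := ⟨w, 0, h⟩
  have : Infinite W := Module.Free.infinite ℝ W
  rw [hf.isClosed.closure_eq.symm.trans hs.closure_eq] at hf
  exact Set.infinite_univ hf

/-- Below a cardinal that is not a strong limit there is room for the construction. -/
lemma exists_regular {κ : Cardinal.{u}} (h0 : ℵ₀ ≤ κ) (h : ¬ κ.IsStrongLimit) :
    ∃ l ρ : Cardinal.{u}, ℵ₀ ≤ l ∧ l < κ ∧ κ ≤ ρ ∧ ρ ≤ 2 ^ l ∧ ρ.IsRegular := by
  obtain ⟨x, x1, x2⟩ := not_isStrongPrelimit_iff.mp fun h' =>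
    h ⟨(aleph0_pos.trans_le h0).ne', h'⟩
  have h1 : ℵ₀ < κ := h0.lt_of_ne fun e => h (e ▸ isStrongLimit_aleph0)
  by_cases hr : κ.IsRegular
  · exact ⟨max x ℵ₀, κ, le_max_right _ _, max_lt x1 h1, le_rfl,
      x2.trans (power_le_power_left two_ne_zero (le_max_left _ _)), hr⟩
  · have hc := (IsSingular.of_not_isRegular h0 hr).cof_ord_lt
    set l := max (max x ℵ₀) κ.ord.cof with hl
    have l0 : ℵ₀ ≤ l := (le_max_right _ _).trans (le_max_left _ _)
    have l1 : κ ≤ 2 ^ l :=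
      x2.trans (power_le_power_left two_ne_zero ((le_max_left _ _).trans (le_max_left _ _)))
    refine ⟨l, Order.succ κ, l0, max_lt (max_lt x1 h1) hc, Order.le_succ _,
      Order.succ_le_of_lt (l1.lt_of_ne fun e => ?_), isRegular_succ h0⟩
    have := lt_cof_ord_power l0 (b := 2) one_lt_two
    rw [← e] at this
    exact absurd this (not_lt.mpr (le_max_right _ _))

end Pool.Agent.Lib.MP_faf25a_an.R
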