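import Pool.Agent.Lib.MP_faf25a_an.R.Mean

set_option autoImplicit false

open Filter Topology BoundedContinuousFunction Cardinal

namespace Pool.Agent.Lib.MP_faf25a_an.R

universe u

section Small

variable {α : Type u} {κ : Cardinal.{u}}

lemma small_mono {S T : Set α} (h : #T < κ) (hS : S ⊆ T) : #S < κ :=
  (mk_le_mk_of_subset hS).trans_lt h

lemma small_nat (h1 : κ.IsRegular) (h2 : ℵ₀ < κ) {S : ℕ → Set α} (h : ∀ n, #(S n) < κ) :
    #(⋃ n, S n) < κ := by
  have := (card_iUnion_lt_iff_forall_of_isRegular (t := fun n : ULift.{u} ℕ => S n.down) h1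
    (by simpa using h2)).mpr fun n => h _
  exact small_mono this (Set.iUnion_subset fun n => Set.subset_iUnion_of_subset ⟨n⟩ subset_rfl)

lemma small_countable (h2 : ℵ₀ < κ) {S : Set α} (h : S.Countable) : #S < κ :=
  (le_aleph0_iff_set_countable.mpr h).trans_lt h2

end Small

variable (L : Type u)

/-- The tree: finite sequences of labelled sign patterns. -/
abbrev Tr : Type u := List (Bool × Br L)

lemma exists_tau [Infinite L] : ∃ τ : Tr L → Br L, Function.Injective τ := by
  have h : #(Tr L) ≤ #(Br L) := by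
    rw [mk_list_eq_mk, mk_prod, lift_uzero]
    have h0 := aleph0_le_mk (Br L)
    exact (mul_eq_right h0 (by simpa using (natCast_lt_aleph0 (n := 2)).le.trans h0) (by simp)).le
  obtain ⟨e⟩ := h
  exact ⟨e, e.injective⟩

/-- The big index set. -/
def Ix : Type u := (Om L ↪ Om L) × Tr L × Bool

instance : TopologicalSpace (Ix L) := ⊥
instance : DiscreteTopology (Ix L) := ⟨rfl⟩

/-- Bounded functions on the big index set. -/
abbrev LI : Type u := Ix L →ᵇ ℝ

/-- The data of the construction. -/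
structure Dat where
  κ : Cardinal.{u}
  reg : κ.IsRegular
  unc : ℵ₀ < κ
  le : κ ≤ #(Br L)
  τ : Tr L → Br L
  inj : Function.Injective τ

variable {L}

/-- A point of the big index set. -/
def ix (b : Om L ↪ Om L) (q : Tr L) (ε : Bool) : Ix L := (b, q, ε)

/-- The exceptional edges of a function. -/
def Exc (f : LI L) (b : Om L ↪ Om L) : Set ((Bool × Br L) × Tr L) :=
  {p | ∃ δ, f (ix b (p.1 :: p.2) δ) ≠ f (ix b p.2 p.1.1)}

variable (D : Dat L)

/-- The jump functional at a node. -/
noncomputable def jump (b : Om L ↪ Om L) (q : Tr L) : LO L →L[ℝ] ℝ := muL b (D.τ q) q.length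

/-- The twisted sum. -/
noncomputable def XS : Submodule ℝ (LO L × LI L) where
  carrier := {z | (∀ b, #(Exc z.2 b) < D.κ) ∧
    ∀ b q, z.2 (ix b q true) - z.2 (ix b q false) = jump D b q z.1}
  add_mem' := by
    rintro z z' ⟨h1, h2⟩ ⟨h3, h4⟩
    refine ⟨fun b => small_mono ((mk_union_le _ _).trans_lt
      (add_lt_of_lt D.unc.le (h1 b) (h3 b))) ?_, fun b q => ?_⟩
    · rintro p ⟨δ, hδ⟩
      by_contra hc
      simp only [Set.mem_union, Exc, Set.mem_ofPred_eq, not_or, not_exists, not_not] at hc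
      exact hδ (by simp [hc.1 δ, hc.2 δ])
    · simp only [Prod.snd_add, Prod.fst_add, BoundedContinuousFunction.add_apply, map_add]
      rw [← h2 b q, ← h4 b q]; ring
  zero_mem' := ⟨fun b => small_countable D.unc (by simp [Exc]), fun b q => by simp⟩
  smul_mem' := by
    rintro c z ⟨h1, h2⟩
    refine ⟨fun b => small_mono (h1 b) ?_, fun b q => ?_⟩
    · rintro p ⟨δ, hδ⟩
      refine ⟨δ, fun h => hδ ?_⟩
      simp [h]
    · simp only [Prod.smul_snd, Prod.smul_fst, BoundedContinuousFunction.smul_apply, map_smul,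
        smul_eq_mul]
      rw [← h2 b q]; ring

lemma mem_XS {z : LO L × LI L} : z ∈ XS D ↔ (∀ b, #(Exc z.2 b) < D.κ) ∧
    ∀ b q, z.2 (ix b q true) - z.2 (ix b q false) = jump D b q z.1 := Iff.rfl

lemma isClosed_XS : IsClosed (XS D : Set (LO L × LI L)) := by
  refine IsSeqClosed.isClosed fun z z0 hz hlim => ?_
  have hev : ∀ i : Ix L, Tendsto (fun n => (z n).2 i) atTop (𝓝 (z0.2 i)) := fun i =>
    (((evalCLM ℝ i).continuous.comp continuous_snd).tendsto z0).comp hlim
  refine (mem_XS D).mpr ⟨fun b => ?_, fun b q => ?_⟩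
  · refine small_mono (small_nat D.reg D.unc fun n => ((mem_XS D).mp (hz n)).1 b) ?_
    rintro p ⟨δ, hδ⟩
    by_contra hc
    simp only [Set.mem_iUnion, Exc, Set.mem_ofPred_eq, not_exists, not_not] at hc
    refine hδ (tendsto_nhds_unique (hev _) ?_)
    simp_rw [fun n => hc n δ]
    exact hev _
  · refine tendsto_nhds_unique ((hev _).sub (hev _)) ?_
    simp_rw [fun n => ((mem_XS D).mp (hz n)).2 b q]
    exact (((jump D b q).continuous.comp continuous_fst).tendsto z0).comp hlim

instance : CompleteSpace (XS D) := (isClosed_XS D).completeSpace_coe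

/-- The projection onto the first coordinate. -/
noncomputable def proj : XS D →L[ℝ] LO L :=
  (ContinuousLinearMap.fst ℝ (LO L) (LI L)).comp (XS D).subtypeL

lemma proj_apply (z : XS D) : proj D z = z.1.1 := rfl

/-- The kernel of the projection. -/
noncomputable def YS : Submodule ℝ (XS D) := (proj D).ker

open Classical in
/-- Retraction of the tree onto the root and a set of edges. -/
noncomputable def retr (E : Set ((Bool × Br L) × Tr L)) : Tr L → Tr L
  | [] => []
  | a :: q => if (a, q) ∈ E then a :: q else retr E q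

lemma ext_YS {V : Type u} [NormedAddCommGroup V] [NormedSpace ℝ V] (W : Submodule ℝ V)
    (s : Set W) (hs : Dense s) (hc : #s < D.κ) (t : W →L[ℝ] YS D) :
    ∃ T : V →L[ℝ] YS D, ∀ w : W, T w = t w := by
  classical
  set t2 : W →L[ℝ] LI L := (ContinuousLinearMap.snd ℝ (LO L) (LI L)).comp
    ((XS D).subtypeL.comp ((YS D).subtypeL.comp t)) with ht2
  have ht2a : ∀ w, t2 w = (t w).1.1.2 := fun w => rfl
  have h0 : ∀ w, (t w).1.1.1 = 0 := fun w => (t w).2
  have hsame : ∀ w b q ε, t2 w (ix b q ε) = t2 w (ix b q true) := by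
    intro w b q ε
    cases ε
    · have := ((mem_XS D).mp (t w).1.2).2 b q
      rw [h0, map_zero, sub_eq_zero] at this
      exact this.symm
    · rfl
  set E : (Om L ↪ Om L) → Set ((Bool × Br L) × Tr L) := fun b => ⋃ w ∈ s, Exc (t2 w) b with hE
  have hEc : ∀ b, #(E b) < D.κ := fun b =>
    (card_biUnion_lt_iff_forall_of_isRegular D.reg hc).mpr fun w _ =>
      ((mem_XS D).mp (t w).1.2).1 b
  have hedge : ∀ b p, p ∉ E b → ∀ w δ, t2 w (ix b (p.1 :: p.2) δ) = t2 w (ix b p.2 p.1.1) := by
    intro b p hp w δ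
    refine hs.induction (P := fun w => t2 w (ix b (p.1 :: p.2) δ) = t2 w (ix b p.2 p.1.1))
      (fun w hw => ?_) (isClosed_eq ?_ ?_) w
    · by_contra hne
      exact hp (Set.mem_biUnion hw ⟨δ, hne⟩)
    · exact (evalCLM ℝ _).continuous.comp t2.continuous
    · exact (evalCLM ℝ _).continuous.comp t2.continuous
  have hretr : ∀ w b q ε, t2 w (ix b (retr (E b) q) true) = t2 w (ix b q ε) := by
    intro w b q
    induction q with
    | nil => intro ε; exact (hsame w b [] ε).symm
    | cons a q ih =>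
      intro ε
      unfold retr
      split_ifs with h
      · exact (hsame w b _ ε).symm
      · rw [ih a.1]
        exact (hedge b (a, q) h w ε).symm
  obtain ⟨ψ, h1, h2⟩ := exists_coord W t2
  obtain ⟨T, hT⟩ := exists_op (ι := Ix L) (fun i => ψ (ix i.1 (retr (E i.1) i.2.1) true)) ‖t2‖
    t2.opNorm_nonneg (fun i => h1 _)
  have hT' : ∀ v b q ε, T v (ix b q ε) = ψ (ix b (retr (E b) q) true) v := fun v b q ε => hT v _
  have hmem : ∀ v, ((0 : V →L[ℝ] LO L).prod T) v ∈ XS D := by
    intro v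
    refine (mem_XS D).mpr ⟨fun b => small_mono (hEc b) ?_, fun b q => ?_⟩
    · rintro p ⟨δ, hδ⟩
      by_contra hp
      refine hδ ?_
      show T v _ = T v _
      rw [hT', hT']
      conv_lhs => unfold retr
      rw [if_neg hp]
    · show T v _ - T v _ = jump D b q 0
      rw [hT', hT', map_zero, sub_self]
  refine ⟨(((0 : V →L[ℝ] LO L).prod T).codRestrict (XS D) hmem).codRestrict (YS D) (fun v => rfl),
    fun w => ?_⟩
  refine Subtype.ext (Subtype.ext (Prod.ext (h0 w).symm ?_))
  show T w = t2 w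
  ext ⟨b, q, ε⟩
  exact (hT' w b q ε).trans ((h2 _ w).trans (hretr w b q ε))

open Classical in
/-- The recursive lifting of prescribed jumps. -/
noncomputable def lft (g : Tr L → ℝ) : Tr L → Bool → ℝ
  | [], ε => if ε then g [] / 2 else -(g [] / 2)
  | a :: q, ε => if g (a :: q) ≠ 0 then (if ε then g (a :: q) / 2 else -(g (a :: q) / 2))
      else lft g q a.1

lemma abs_lft_le (g : Tr L → ℝ) (C : ℝ) (hC : ∀ q, |g q| ≤ C) (q : Tr L) (ε : Bool) :
    |lft g q ε| ≤ C := by
  have key : ∀ (q : Tr L) (ε : Bool), |if ε then g q / 2 else -(g q / 2)| ≤ C := by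
    intro q ε
    have := hC q
    have h2 := abs_nonneg (g q)
    split_ifs
    · rw [abs_div, abs_two]; linarith
    · rw [abs_neg, abs_div, abs_two]; linarith
  induction q generalizing ε with
  | nil => exact key _ _
  | cons a q ih =>
    unfold lft
    by_cases h : g (a :: q) ≠ 0
    · rw [if_pos h]; exact key _ _
    · rw [if_neg h]; exact ih _

lemma lft_jump (g : Tr L → ℝ) (q : Tr L) : lft g q true - lft g q false = g q := by
  cases q with
  | nil => simp [lft]
  | cons a q =>
    unfold lft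
    by_cases h : g (a :: q) ≠ 0
    · rw [if_pos h, if_pos h]; simp
    · rw [if_neg h, if_neg h, sub_self]; exact (not_not.mp h).symm

lemma countable_jump_ne (b : Om L ↪ Om L) (x : LO L) : {q : Tr L | jump D b q x ≠ 0}.Countable := by
  refine (Set.countable_iUnion fun i : ℕ =>
    (countable_mu_ne b i x).preimage_of_injOn (f := D.τ) D.inj.injOn).mono ?_
  intro q hq
  exact Set.mem_iUnion.mpr ⟨q.length, hq⟩

lemma proj_surjective : Function.Surjective (proj D) := by
  intro x
  set f : LI L := ofNormedAddCommGroupDiscrete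
    (fun i : Ix L => lft (fun q => jump D i.1 q x) i.2.1 i.2.2) ‖x‖
    (fun i => abs_lft_le _ _ (fun q => abs_mu_le _ _ _ _) _ _) with hf
  have hf' : ∀ b q ε, f (ix b q ε) = lft (fun q => jump D b q x) q ε := fun b q ε => rfl
  refine ⟨⟨(x, f), (mem_XS D).mpr ⟨fun b => small_countable D.unc ?_, fun b q => ?_⟩⟩, rfl⟩
  · refine ((countable_jump_ne D b x).preimage_of_injOn
      (f := fun p : (Bool × Br L) × Tr L => p.1 :: p.2) ?_).mono ?_
    · rintro p - p' - h
      exact Prod.ext (List.cons.inj h).1 (List.cons.inj h).2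
    · rintro p ⟨δ, hδ⟩
      by_contra hp
      refine hδ ?_
      show f _ = f _
      rw [hf', hf']
      conv_lhs => unfold lft
      exact if_neg hp
  · show f _ - f _ = _
    rw [hf', hf', lft_jump]

lemma ext_quot {X : Type u} [NormedAddCommGroup X] [NormedSpace ℝ X] [CompleteSpace X]
    (π : X →L[ℝ] LO L) (hπ : Function.Surjective π) (Y : Submodule ℝ X) [IsClosed (Y : Set X)]
    (hY : Y = π.ker) {V : Type u} [NormedAddCommGroup V] [NormedSpace ℝ V]
    (W : Submodule ℝ V) (t : W →L[ℝ] (X ⧸ Y)) :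
    ∃ T : V →L[ℝ] (X ⧸ Y), ∀ w : W, T w = t w := by
  set e : (X ⧸ Y) ≃L[ℝ] LO L := ContinuousLinearEquiv.ofBijective (Y.liftQL π hY.le)
    (by rw [Submodule.toLinearMap_liftQL]; exact Submodule.ker_liftQ_eq_bot _ _ _ hY.ge)
    (by
      rw [Submodule.toLinearMap_liftQL, Submodule.range_liftQ]
      exact LinearMap.range_eq_top.mpr hπ) with he
  obtain ⟨T, hT⟩ := injective_linf W ((e : (X ⧸ Y) →L[ℝ] LO L).comp t)
  refine ⟨(e.symm : LO L →L[ℝ] (X ⧸ Y)).comp T, fun w => ?_⟩
  simp [hT]

variable [Infinite L]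

lemma mu_csp (b : Om L ↪ Om L) (t : Br L) (i : ℕ) {x : LO L} (hx : x ∈ csp (pt (L := L))) :
    muL b t i x = 0 :=
  csp_le pt (K := (muL b t i).ker) (muL b t i).isClosed_ker (fun ω => mu_pt b t i ω) hx

/-- The embedding of the test space. -/
noncomputable def tst : csp (pt (L := L)) →L[ℝ] XS D :=
  ((csp pt).subtypeL.prod (0 : csp (pt (L := L)) →L[ℝ] LI L)).codRestrict (XS D) (fun y =>
    (mem_XS D).mpr ⟨fun b => small_countable D.unc (by simp [Exc]), fun b q => by
      have := mu_csp b (D.τ q) q.length y.2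
      simpa [jump] using this.symm⟩)

lemma no_extension : ¬ ∃ T : LO L →L[ℝ] XS D, ∀ y : csp (pt (L := L)), T y = tst D y := by
  rintro ⟨T, hT⟩
  obtain ⟨b, hb⟩ := exists_emb ((proj D).comp T) fun ω => by
    have := hT ⟨pt ω, mem_csp pt ω⟩
    show proj D (T (pt ω)) = _
    rw [this]; rfl
  set F : LO L →L[ℝ] LI L :=
    (ContinuousLinearMap.snd ℝ (LO L) (LI L)).comp ((XS D).subtypeL.comp T) with hF
  have hF' : ∀ x, F x = (T x).1.2 := fun x => rfl
  have hstep : ∀ c : Tr L, ∃ (δ : Bool) (z : LO L),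
      (∀ ω : Om L, (Function.invFun b ω).1 ≠ c.length → z ω = 0) ∧ (∀ ω, |z ω| ≤ 1) ∧
      1 / 4 ≤ F z (ix b c δ) := by
    intro c
    set z := zf b (D.τ c) c.length with hz
    have z2 : ∀ ω : Om L, (Function.invFun b ω).1 ≠ c.length → z ω = 0 := fun ω h => by
      rw [hz, zf_apply, if_neg fun h' => h h'.2]
    have z3 : ∀ ω, |z ω| ≤ 1 := abs_zf _ _ _
    have hj : 1 / 2 ≤ F z (ix b c true) - F z (ix b c false) := by
      rw [hF', ((mem_XS D).mp (T z).2).2 b c]
      exact hb _ _
    by_cases h : 1 / 4 ≤ F z (ix b c true)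
    · exact ⟨true, z, z2, z3, h⟩
    · refine ⟨false, -z, fun ω hω => by simp [z2 ω hω], fun ω => by simpa using z3 ω, ?_⟩
      rw [map_neg, BoundedContinuousFunction.neg_apply]
      linarith
  have hind : ∀ m : ℕ, ∃ (q : Tr L) (ε : Bool) (x : LO L), q.length = m ∧
      (∀ ω : Om L, m < (Function.invFun b ω).1 → x ω = 0) ∧ (∀ ω, |x ω| ≤ 1) ∧
      ((m : ℝ) + 1) / 4 ≤ F x (ix b q ε) := by
    intro m
    induction m with
    | zero =>
      obtain ⟨δ, z, z2, z3, z4⟩ := hstep []
      exact ⟨[], δ, z, rfl, fun ω hω => z2 ω hω.ne', z3, by simpa using z4⟩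
    | succ m ih =>
      obtain ⟨q, ε, x, hq, x2, x3, x4⟩ := ih
      obtain ⟨t, ht⟩ : ∃ t : Br L, ((ε, t), q) ∉ Exc (F x) b := by
        by_contra hc
        push Not at hc
        refine absurd (((mem_XS D).mp (T x).2).1 b) (not_lt.mpr (D.le.trans ?_))
        refine mk_le_of_injective (f := fun t => ⟨((ε, t), q), hc t⟩) fun t t' h => ?_
        exact (Prod.mk.inj (Prod.mk.inj (Subtype.mk.inj h)).1).2
      obtain ⟨δ, z, z2, z3, z4⟩ := hstep ((ε, t) :: q)
      have hlen : ((ε, t) :: q).length = m + 1 := by simp [hq]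
      rw [hlen] at z2
      refine ⟨(ε, t) :: q, δ, x + z, hlen, fun ω hω => ?_, fun ω => ?_, ?_⟩
      · rw [BoundedContinuousFunction.add_apply, x2 ω (by omega), z2 ω (by omega), add_zero]
      · rw [BoundedContinuousFunction.add_apply]
        by_cases h : (Function.invFun b ω).1 = m + 1
        · rw [x2 ω (by omega), zero_add]; exact z3 ω
        · rw [z2 ω h, add_zero]; exact x3 ω
      · have : F x (ix b ((ε, t) :: q) δ) = F x (ix b q ε) := by
          by_contra hne
          exact ht ⟨δ, hne⟩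
        rw [map_add, BoundedContinuousFunction.add_apply, this]
        push_cast
        linarith
  obtain ⟨m, hm⟩ := exists_nat_gt (4 * ‖F‖)
  obtain ⟨q, ε, x, -, -, x3, x4⟩ := hind m
  have hx : ‖x‖ ≤ 1 := (BoundedContinuousFunction.norm_le zero_le_one).mpr x3
  have h1 : F x (ix b q ε) ≤ ‖F‖ :=
    (le_abs_self _).trans (((F x).norm_coe_le_norm _).trans
      ((F.le_opNorm x).trans (mul_le_of_le_one_right (norm_nonneg _) hx)))
  linarith

end Pool.Agent.Lib.MP_faf25a_an.R
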